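import Pool.Agent.helper40.TW.SpecG

/-! Project TW, block G, row DEC: the detector. -/

set_option autoImplicit false

open Complex MeasureTheory Metric
open scoped ComplexConjugate ArithmeticFunction.vonMangoldt

namespace Pool.Agent.TWG

open Pool.Agent.helper6.LD (wt)
open Pool.Agent.helper85.BVP (ex)
open Pool.Agent.TW (Win Pw)

theorem DEC (_hZFI : ZFI_stmt) (hLCT : LCT_stmt) (hDET : DET_stmt) (hTRU : TRU_stmt) : DEC_stmt := by
  obtain ⟨C, ML, hC, hML, hL⟩ := hLCT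
  obtain ⟨A₁, rD, MD, hA, hrD, hrD', hMD, hD⟩ := hDET
  obtain ⟨θ₁, θ₂, rT, hθ1, hθ12, hθ2, hrT, hrT', hT⟩ := hTRU
  refine ⟨A₁, min rD rT, θ₁, θ₂, 16 * C, max ML MD, hA, lt_min hrD hrT, (min_le_left _ _).trans hrD', hθ1, hθ12, hθ2,
    by positivity, hML.trans (le_max_left _ _), ?_⟩
  intro M hM q χ hadm r v K hr1 hr2 hv hK
  have hM1 : ML ≤ M := (le_max_left _ _).trans hM
  have hM2 : MD ≤ M := (le_max_right _ _).trans hM
  have hM3 : (3 : ℝ) ≤ M := by exact_mod_cast hML.trans hM1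
  have hlog : 0 < Real.log M := Real.log_pos (by linarith)
  have hr0 : 0 < r := lt_of_lt_of_le (by positivity) hr1
  have hrl : 1 ≤ r * Real.log M := by
    rw [div_le_iff₀ hlog] at hr1
    exact hr1
  have hr64 : r ≤ 1 / 64 := hr2.trans ((min_le_left _ _).trans hrD')
  have hterm : ∀ k ∈ Finset.Icc K (2 * K), 0 ≤ (10 * r) ^ (2 * k) *
      ‖DP χ k r (Real.exp (θ₁ * K / r)) (Real.exp (θ₂ * K / r)) v‖ ^ 2 := fun k _ => by positivity
  have hsum0 := Finset.sum_nonneg hterm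
  rcases le_or_gt (nz χ (closedBall (sp 0 v) r)) 0 with hz | hz
  · exact hz.trans (mul_nonneg (by positivity) hsum0)
  · have hK2 : 2 ≤ K := by
      have h1 : (2 : ℝ) ≤ K := by nlinarith
      exact_mod_cast h1
    obtain ⟨k, hk1, hk2, hk3⟩ := hD M hM2 q χ hadm r v K hr1 (hr2.trans (min_le_left _ _)) hv hK hz
    have hq1 : 1 ≤ q := by
      have := hadm.1
      omega
    have h4 := hT q χ hq1 r v K k hr0 (hr2.trans (min_le_right _ _)) hK2 hk1 hk2
    have hl := hL M hM1 q χ hadm r v hr1 (by linarith) hv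
    have h5 : 1 / 4 * ((10 * r) ^ k)⁻¹ ≤ ‖DP χ k r (Real.exp (θ₁ * K / r)) (Real.exp (θ₂ * K / r)) v‖ := by
      have h6 := norm_sub_norm_le (PP χ k r v) (DP χ k r (Real.exp (θ₁ * K / r)) (Real.exp (θ₂ * K / r)) v)
      linarith
    have hp : 0 < (10 * r) ^ k := by positivity
    have h7 : 1 / 16 ≤ (10 * r) ^ (2 * k) * ‖DP χ k r (Real.exp (θ₁ * K / r)) (Real.exp (θ₂ * K / r)) v‖ ^ 2 := by
      have h8 : 1 / 4 ≤ (10 * r) ^ k * ‖DP χ k r (Real.exp (θ₁ * K / r)) (Real.exp (θ₂ * K / r)) v‖ := by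
        calc (1 : ℝ) / 4 = (10 * r) ^ k * (1 / 4 * ((10 * r) ^ k)⁻¹) := by field_simp
          _ ≤ _ := mul_le_mul_of_nonneg_left h5 hp.le
      have h9 : (1 / 4 : ℝ) ^ 2 ≤ ((10 * r) ^ k * ‖DP χ k r (Real.exp (θ₁ * K / r)) (Real.exp (θ₂ * K / r)) v‖) ^ 2 :=
        pow_le_pow_left₀ (by norm_num) h8 2
      calc (1 : ℝ) / 16 = (1 / 4) ^ 2 := by norm_num
        _ ≤ _ := h9
        _ = _ := by ring
    have h10 : 1 / 16 ≤ ∑ k ∈ Finset.Icc K (2 * K), (10 * r) ^ (2 * k) *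
        ‖DP χ k r (Real.exp (θ₁ * K / r)) (Real.exp (θ₂ * K / r)) v‖ ^ 2 :=
      h7.trans (Finset.single_le_sum hterm (Finset.mem_Icc.mpr ⟨hk1, hk2⟩))
    have h11 : 0 ≤ C * (r * Real.log M) := by positivity
    calc nz χ (closedBall (sp 0 v) r) ≤ C * (r * Real.log M) := hl
      _ = 16 * C * (r * Real.log M) * (1 / 16) := by ring
      _ ≤ _ := mul_le_mul_of_nonneg_left h10 (by linarith)

end Pool.Agent.TWG
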